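import Pool.Agent.H53.GX.Targets2

set_option autoImplicit false
set_option linter.unusedVariables false

namespace Pool.Agent.H42.GX

open Pool.Agent.H68.BP Pool.Agent.H58.SF Pool.Agent.H53.GM Pool.Agent.H53.GX
open Pool.Agent.H53.GR (So)
open Classical

/-- restrictions of reindexed types -/
theorem rse_rs {τ : Sig} {N : ℕ} {J J' : Type} (u : J' → J) (s : Finset J') (e : Finset J)
    (t t' : Ty τ N J) (h : rse e t = rse e t') (hu : ∀ j ∈ s, u j ∈ e) :
    rse s (rs u t) = rse s (rs u t') := by
  have key : ∀ (t t' : Ty τ N J), rse e t = rse e t' → rse s (rs u t) ⊆ rse s (rs u t') := by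
    intro t t' h q hq
    obtain ⟨h1, h2⟩ := hq
    refine ⟨?_, h2⟩
    have h3 : (q.1, fun v => (q.2 v).map u) ∈ rse e t := by
      refine ⟨h1, ?_⟩
      intro v i hvi
      simp only [Option.map_eq_some_iff] at hvi
      obtain ⟨a, ha, rfl⟩ := hvi
      exact hu a (h2 v a ha)
    rw [h] at h3
    exact h3.1
  exact Set.Subset.antisymm (key t t' h) (key t' t h.symm)

theorem rse_rse {τ : Sig} {N : ℕ} {J : Type} (s e : Finset J) (t : Ty τ N J) (h : s ⊆ e) :
    rse s (rse e t) = rse s t := by
  ext q
  constructor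
  · intro hq
    exact ⟨hq.1.1, hq.2⟩
  · intro hq
    exact ⟨⟨hq.1, fun v i hv => h (hq.2 v i hv)⟩, hq.2⟩

theorem w_r {k : ℕ} (i : Fin k) :
    (Fin.addCases id id : Fin (k + k) → Fin k) (Fin.natAdd k i) = i :=
  Fin.addCases_right (motive := fun _ => Fin k) i

theorem w_l {k : ℕ} (i : Fin k) :
    (Fin.addCases id id : Fin (k + k) → Fin k) (Fin.castAdd k i) = i :=
  Fin.addCases_left (motive := fun _ => Fin k) i

theorem w_cst {k : ℕ} (I : Finset (Fin k)) : ∀ j ∈ cst I,
    (Fin.addCases id id : Fin (k + k) → Fin k) j ∈ I := by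
  intro j hj
  simp only [cst, Finset.mem_image] at hj
  obtain ⟨a, ha, rfl⟩ := hj
  rw [w_r]
  exact ha

theorem w_ps {k : ℕ} (I : Finset (Fin k)) : ∀ j ∈ ps I,
    (Fin.addCases id id : Fin (k + k) → Fin k) j ∈ I := by
  intro j hj
  simp only [ps, Finset.mem_image] at hj
  obtain ⟨a, ha, rfl⟩ := hj
  rw [w_l]
  exact ha

theorem w_rdp {k : ℕ} (I : Finset (Fin k)) (v : Fin k) :
    (Fin.addCases id id : Fin (k + k) → Fin k) (rdp I v) = v := by
  unfold rdp
  split
  · exact w_r v
  · exact w_l v

theorem rdp_mem {k : ℕ} (I : Finset (Fin k)) (v : Fin k) :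
    rdp I v ∈ ps (Finset.univ \ I) ∪ cst I := by
  unfold rdp
  split
  · next h =>
    exact Finset.mem_union_right _ (Finset.mem_image_of_mem _ h)
  · next h =>
    exact Finset.mem_union_left _ (Finset.mem_image_of_mem _ (by simp [h]))

theorem pf_CFG (hTPB : Pool.Agent.H53.GM.T_TPB) : Pool.Agent.H53.GX.T_CFG := by
  intro τ σ N k L F I hk C hC r lb hreg hadj P hP hbin
  have hRl : ∀ c, Rl F (dup (P c)) := by
    intro c
    obtain ⟨W, hW, M, a, hM, ha⟩ := hC _ (hP.mem c)
    refine ⟨W, hW, M, fun j => a ((Fin.addCases id id : Fin (k + k) → Fin k) j), hM, ?_⟩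
    have h := (hTPB τ N W W (Fin k) (Fin (k + k)) M M a).2.1
      (Fin.addCases id id : Fin (k + k) → Fin k)
    rw [h, ha]
    rfl
  have hcst : ∀ c, rse (cst I) (dup (P c)) = rse (cst I) (dup (P 0)) := by
    intro c
    exact rse_rs _ (cst I) I _ _ (hP.eq I (by simp) c 0) (w_cst I)
  have hcf : CfX F I (rse (cst I) (dup (P 0))) (cfg I r lb P) := by
    refine ⟨?_, ?_, ?_, ?_, ?_⟩
    · exact Finset.Subset.refl _
    · intro c
      refine ⟨⟨dup (P c), hRl c, rfl⟩, ?_⟩
      show rse (cst I) (rse (ps (Finset.univ \ I) ∪ cst I) (dup (P c))) = _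
      rw [rse_rse _ _ _ Finset.subset_union_right]
      exact hcst c
    · intro v _
      exact hreg v
    · intro v _ v' _
      exact hadj v v'
    · rcases hbin with h | ⟨x, y, h⟩
      · left
        intro v _
        exact h v
      · right
        refine ⟨rse (ps (Finset.univ \ I) ∪ cst I) (dup x),
          rse (ps (Finset.univ \ I) ∪ cst I) (dup y), ?_⟩
        funext c
        show rse (ps (Finset.univ \ I) ∪ cst I) (dup (P c)) = _
        rw [h]
        exact pat_map (fun t : Ty τ N (Fin k) => rse (ps (Finset.univ \ I) ∪ cst I) (dup t)) r x y c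
  refine ⟨⟨dup (P 0), hRl 0, rfl⟩, ⟨hcf, hreg, hadj, ?_⟩, ?_, ?_⟩
  · rcases hbin with h | ⟨x, y, h⟩
    · left
      exact h
    · right
      refine ⟨rse (ps (Finset.univ \ I) ∪ cst I) (dup x),
        rse (ps (Finset.univ \ I) ∪ cst I) (dup y), ?_⟩
      funext c
      show rse (ps (Finset.univ \ I) ∪ cst I) (dup (P c)) = _
      rw [h]
      exact pat_map (fun t : Ty τ N (Fin k) => rse (ps (Finset.univ \ I) ∪ cst I) (dup t)) r x y c
  · intro c
    show rs (rdp I) (rse (ps (Finset.univ \ I) ∪ cst I) (dup (P c))) = P c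
    have hmap : ∀ ρ : Fin N → Option (Fin k),
        (fun v => Option.map (Fin.addCases id id : Fin (k + k) → Fin k)
          (Option.map (rdp I) (ρ v))) = ρ := by
      intro ρ
      funext v
      rw [Option.map_map]
      have : (Fin.addCases id id : Fin (k + k) → Fin k) ∘ rdp I = id := by
        funext x
        exact w_rdp I x
      rw [this]
      simp
    ext q
    obtain ⟨D, ρ⟩ := q
    constructor
    · intro hq
      have h1 : (D, fun v => Option.map (Fin.addCases id id : Fin (k + k) → Fin k)
          (Option.map (rdp I) (ρ v))) ∈ P c := hq.1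
      rw [hmap] at h1
      exact h1
    · intro hq
      refine ⟨?_, ?_⟩
      · show (D, fun v => Option.map (Fin.addCases id id : Fin (k + k) → Fin k)
          (Option.map (rdp I) (ρ v))) ∈ P c
        rw [hmap]
        exact hq
      · intro v i hv
        simp only [Option.map_eq_some_iff] at hv
        obtain ⟨a, ha, rfl⟩ := hv
        exact rdp_mem I a
  · intro r' lb' P' e hP' hlb hPe
    have ha : rse (cst I) (dup (P 0)) = rse (cst I) (dup (P' 0)) :=
      rse_rs _ (cst I) (e ∪ I) _ _ (hPe 0) (fun j hj =>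
        Finset.mem_union_right _ (w_cst I j hj))
    have hpts : pts (lbx lb) (ps (e \ I)) = pts (lbx lb') (ps (e \ I)) := by
      unfold pts
      apply Finset.image_congr
      intro x hx
      simp only [ps, Finset.coe_image, Set.mem_image, Finset.mem_coe, Finset.mem_sdiff] at hx
      obtain ⟨v, hv, rfl⟩ := hx
      show (Fin.castAdd k v, lbx lb (Fin.castAdd k v)) =
        (Fin.castAdd k v, lbx lb' (Fin.castAdd k v))
      simp only [lbx, Fin.addCases_left]
      rw [hlb v hv.1]
    have hvr : vr (pts (lbx lb') (ps (e \ I))) = ps (e \ I) := by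
      unfold vr pts
      rw [Finset.image_image]
      ext x
      simp
    have hres : ∀ c, rse (ps (e \ I) ∪ cst I) (rse (ps (Finset.univ \ I) ∪ cst I) (dup (P c))) =
        rse (ps (e \ I) ∪ cst I) (rse (ps (Finset.univ \ I) ∪ cst I) (dup (P' c))) := by
      intro c
      have hsub : ps (e \ I) ∪ cst I ⊆ ps (Finset.univ \ I) ∪ cst I := by
        apply Finset.union_subset_union_left
        apply Finset.image_subset_image
        exact Finset.sdiff_subset_sdiff (Finset.subset_univ _) (Finset.Subset.refl _)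
      rw [rse_rse _ _ _ hsub, rse_rse _ _ _ hsub]
      apply rse_rs _ _ (e ∪ I) _ _ (hPe c)
      intro j hj
      rcases Finset.mem_union.1 hj with h | h
      · exact Finset.mem_union_left _ (Finset.mem_sdiff.1 (w_ps (e \ I) j h)).1
      · exact Finset.mem_union_right _ (w_cst I j h)
    refine ⟨ha, ?_, ?_⟩
    · intro hr
      subst hr
      refine ⟨⟨?_, ?_, ?_⟩, hlb⟩
      · intro v _
        exact Iff.rfl
      · intro v hv _
        exact hlb v hv
      · show rsG (cst I) (rse (cst I) (dup (P 0))) (pts (lbx lb) (ps (e \ I)))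
            (fun c => rse (ps (Finset.univ \ I) ∪ cst I) (dup (P c)),
              fun d => rse (ps (Finset.univ \ I) ∪ cst I) (dup (P (ix r d)))) =
          rsG (cst I) (rse (cst I) (dup (P 0))) (pts (lbx lb') (ps (e \ I)))
            (fun c => rse (ps (Finset.univ \ I) ∪ cst I) (dup (P' c)),
              fun d => rse (ps (Finset.univ \ I) ∪ cst I) (dup (P' (ix r d))))
        rw [hpts]
        unfold rsG
        rw [hvr]
        simp only [hres]
    · intro hz
      refine ⟨⟨?_, ?_, ?_⟩, hlb⟩
      · intro v _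
        exact Iff.rfl
      · intro v hv _
        exact hlb v hv
      · show rsG (cst I) (rse (cst I) (dup (P 0))) (pts (lbx lb) (ps (e \ I)))
            (fun c => rse (ps (Finset.univ \ I) ∪ cst I) (dup (P c)),
              fun d => rse (ps (Finset.univ \ I) ∪ cst I) (dup (P (ix r d)))) =
          rsG (cst I) (rse (cst I) (dup (P 0))) (pts (lbx lb') (ps (e \ I)))
            (fun c => rse (ps (Finset.univ \ I) ∪ cst I) (dup (P' c)),
              fun d => rse (ps (Finset.univ \ I) ∪ cst I) (dup (P' (ix r' d))))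
        by_cases h0 : pts (lbx lb) (ps (e \ I)) = ∅
        · rw [← hpts]
          unfold rsG
          rw [if_pos h0, if_pos h0]
        · have hAZ : AZ (pts (lbx lb) (ps (e \ I))) := by
            refine ⟨Finset.nonempty_iff_ne_empty.2 h0, ?_⟩
            intro x hx
            simp only [pts, ps, Finset.mem_image] at hx
            obtain ⟨a, ⟨v, hv, rfl⟩, rfl⟩ := hx
            show lbx lb (Fin.castAdd k v) = none
            simp only [lbx, Fin.addCases_left]
            exact hz v
          rw [hpts] at hAZ h0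
          rw [hpts]
          unfold rsG
          rw [hvr, if_neg h0, if_neg h0, if_pos hAZ, if_pos hAZ]
          simp only [hres]

end Pool.Agent.H42.GX
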